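import Pool.Agent.UHJ.Comm
import Pool.Agent.UH2.GenDick
import Pool.Agent.UHT.TColl

/-!
# Far collisions have large degree
-/

set_option autoImplicit false

open IsDedekindDomain NumberField Polynomial
open scoped WithZero

namespace Pool.Agent.UHJ

open Pool.Agent.Arb.DB (od u_ne od_mul od_pos od_nonneg od_lt od_le od_eq od_pow)
open Pool.Agent.UH2 (aeval_fun not_dvd_card two_le_card)

variable {K : Type*} [Field K] [NumberField K]

/-- **Far collisions have large degree.** -/
theorem collision_far {p s : ℕ} (hp : p.Prime) (hs : 0 < s) (f : K[X])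
    (hd : f.natDegree = p ^ s) (v : HeightOneSpectrum (𝓞 K)) {r : K}
    (hr : Rad (v.valuation K) (p ^ s) f ((p ^ s : ℕ) : K) r) :
    ∃ C0 : ℕ, 0 < C0 ∧ ∀ (E : Type*) [Field E] [NumberField E] [Algebra K E] (x y : E),
      (∀ (W : HeightOneSpectrum (𝓞 E)) (e : ℕ), 0 < e →
        (∀ a : K, v.valuation K a ^ e = W.valuation E (algebraMap K E a)) →
        W.valuation E (algebraMap K E (f.coeff (p ^ s) * r ^ p ^ s)) <
          max (W.valuation E x) (W.valuation E y)) → ∀ N : ℕ,
      (fun z : E => aeval z f)^[N + 1] x = (fun z : E => aeval z f)^[N + 1] y →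
      (fun z : E => aeval z f)^[N] x ≠ (fun z : E => aeval z f)^[N] y →
        f.natDegree ^ N ≤ C0 * Module.finrank K E := by
  set u := v.valuation K with hu
  set q := p ^ s with hq
  have hq2 : 2 ≤ q := by
    calc 2 ≤ p := hp.two_le
      _ = p ^ 1 := (pow_one p).symm
      _ ≤ p ^ s := Nat.pow_le_pow_right hp.pos hs
  have hq0 : ((q : ℕ) : K) ≠ 0 := by exact_mod_cast (by omega : q ≠ 0)
  have hp0 : (p : K) ≠ 0 := by exact_mod_cast hp.ne_zero
  set Q := Nat.card (𝓞 K ⧸ v.asIdeal) with hQ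
  have hQ2 : 2 ≤ Q := two_le_card v
  set M : ℕ := (od u ((q : ℕ) : K)).toNat with hM
  refine ⟨Q ^ (p + 1) + q ^ M * q, by positivity, ?_⟩
  intro E _ _ _ x y hxy N heq hne
  obtain ⟨W, e, rr, he0, he, hr0, hrr, hcard, hw⟩ := UHT.exists_above' v E
  have hfar := hxy W e he0 hw
  set w := W.valuation E with hwdef
  have he0' : (0 : ℤ) < e := by exact_mod_cast he0
  have hodw : ∀ a : K, od w (algebraMap K E a) = e * od u a := fun a =>
    od_pow u e w (hw a).symm
  have hmono : ∀ a b : K, u a ≤ u b → w (algebraMap K E a) ≤ w (algebraMap K E b) := by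
    intro a b h
    rw [← hw, ← hw]
    exact pow_le_pow_left₀ zero_le h _
  rw [aeval_fun] at heq hne
  set P := f.map (algebraMap K E) with hPdef
  have hPd : P.natDegree = q := by rw [hPdef, natDegree_map, hd]
  have hrE : Rad w q P ((q : ℕ) : E) (algebraMap K E r) := by
    have := hr.base hw
    rwa [map_natCast] at this
  have hqE0 : ((q : ℕ) : E) ≠ 0 := by exact_mod_cast (by omega : q ≠ 0)
  have hκE : w ((q : ℕ) : E) ≤ 1 := natCast_mem w.integer q
  have hρ : w (algebraMap K E (f.coeff q * r ^ q)) =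
      w (P.coeff q) * w (algebraMap K E r) ^ q := by
    rw [hPdef, coeff_map, map_mul, map_mul, map_pow, map_pow]
  rw [hρ] at hfar
  obtain ⟨huv, hx, hy⟩ := eq_of_collision (by omega) hPd.le hqE0 hκE hrE hfar heq
  rw [hd]
  by_cases hv : u (p : K) = 1
  · -- tame
    have hpQ : ¬ p ∣ Q := not_dvd_card hp v hv
    have hpE : w (p : E) = 1 := by
      have := hw (p : K)
      rw [map_natCast (algebraMap K E), hv, one_pow] at this
      exact this.symm
    have hqE : w ((q : ℕ) : E) = 1 := by
      rw [hq]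
      push_cast
      rw [map_pow, hpE, one_pow]
    obtain ⟨ρ, hρ1, hρ2, hρ3⟩ := far_tame (by omega) hPd.le hκE hqE hx hy huv heq hne
    have h4 := UHT.residue_bound W hp hρ1 hρ2 hρ3
    rw [hcard] at h4
    have h5 := UHT.lte_bound hp hQ2 hpQ hr0 h4
    calc q ^ N = p ^ (s * N) := by rw [hq, pow_mul]
      _ ≤ p ^ (s * N + 1) := Nat.pow_le_pow_right hp.pos (Nat.le_succ _)
      _ ≤ Q ^ (p + 1) * rr := h5
      _ ≤ Q ^ (p + 1) * Module.finrank K E := Nat.mul_le_mul_left _ hrr
      _ ≤ _ := Nat.mul_le_mul_right _ (Nat.le_add_right _ _)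
  · -- wild
    have hv1 : u (p : K) < 1 := lt_of_le_of_ne (natCast_mem u.integer p) hv
    obtain ⟨π, hπu⟩ := v.valuation_exists_uniformizer K
    rw [← hu] at hπu
    have hπ0 : π ≠ 0 := by
      rintro rfl
      rw [map_zero] at hπu
      exact (WithZero.exp_ne_zero).symm hπu
    have hodπ : od u π = 1 := by
      unfold od
      rw [hπu, WithZero.log_exp]; ring
    have hπ : u π < 1 := by rw [od_pos u hπ0, hodπ]; exact one_pos
    have hlt : ∀ a : K, u a < 1 → u a ≤ u π := by
      intro a ha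
      by_cases ha0 : a = 0
      · rw [ha0, map_zero]; exact zero_le
      · rw [od_le u ha0 hπ0, hodπ]
        have := (od_pos u ha0).mp ha
        omega
    have hπE0 : algebraMap K E π ≠ 0 := by simpa using hπ0
    have hπE : w (algebraMap K E π) < 1 := by
      rw [← hw]; exact pow_lt_one₀ zero_le hπ (by omega)
    have hpE : w (p : E) ≤ w (algebraMap K E π) := by
      have := hmono _ _ (hlt _ hv1)
      rwa [map_natCast] at this
    have huq : u ((q : ℕ) : K) < 1 := by
      rw [hq]; push_cast; rw [map_pow]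
      exact pow_lt_one₀ zero_le hv1 (by omega)
    have hqπE : w ((q : ℕ) : E) ≤ w (algebraMap K E π) := by
      have := hmono _ _ (hlt _ huq)
      rwa [map_natCast] at this
    obtain ⟨m, hm1, hm2⟩ := far_wild hp hs hPd.le hqπE hπE hπE0 hpE le_rfl hqE0 hx hy huv heq hne
    rw [← hq] at hm1 hm2
    have hodqE : od w ((q : ℕ) : E) = e * od u ((q : ℕ) : K) := by
      rw [← hodw, map_natCast]
    rw [hodw, hodπ, mul_one, hodqE] at hm1
    rw [hodw, hodπ, mul_one] at hm2
    have hm3 : m ≤ M := by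
      have h1 := Int.self_le_toNat (od u ((q : ℕ) : K))
      have h2 : (m : ℤ) * e ≤ M * e := by
        rw [hM]
        calc (m : ℤ) * e ≤ e * od u ((q : ℕ) : K) := hm1
          _ ≤ e * ((od u ((q : ℕ) : K)).toNat : ℤ) := mul_le_mul_of_nonneg_left h1 he0'.le
          _ = _ := mul_comm _ _
      exact_mod_cast le_of_mul_le_mul_right h2 he0'
    have h7 : q ^ N ≤ q ^ m * (q * e) := by exact_mod_cast hm2
    calc q ^ N ≤ q ^ m * (q * e) := h7
      _ ≤ q ^ M * (q * e) := Nat.mul_le_mul_right _ (Nat.pow_le_pow_right (by omega) hm3)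
      _ = q ^ M * q * e := by ring
      _ ≤ q ^ M * q * Module.finrank K E := Nat.mul_le_mul_left _ he
      _ ≤ _ := Nat.mul_le_mul_right _ (Nat.le_add_left _ _)

end Pool.Agent.UHJ
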