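import Pool.Agent.UHJ.Far

/-!
# Radii, base change, commuting polynomials
-/

set_option autoImplicit false

open IsDedekindDomain NumberField Polynomial
open scoped WithZero

namespace Pool.Agent.UHJ

open Pool.Agent.Arb.DB (od u_ne od_mul od_pos od_nonneg od_lt od_le od_eq od_pow)

/-- Base change of a radius. -/
theorem Rad.base {K E : Type*} [Field K] [Field E] [Algebra K E] {u : Valuation K ℤᵐ⁰}
    {w : Valuation E ℤᵐ⁰} {e : ℕ} (hw : ∀ a : K, u a ^ e = w (algebraMap K E a))
    {q : ℕ} {P : K[X]} {κ y : K} (h : Rad u q P κ y) :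
    Rad w q (P.map (algebraMap K E)) (algebraMap K E κ) (algebraMap K E y) := by
  refine ⟨by simpa using h.ne, ?_, fun i hi => ?_⟩
  · have e1 : w ((P.map (algebraMap K E)).coeff q) * w (algebraMap K E y) ^ (q - 1) =
        (u (P.coeff q) * u y ^ (q - 1)) ^ e := by
      rw [coeff_map, ← hw, ← hw, mul_pow, ← pow_mul, ← pow_mul, mul_comm e]
    rw [e1]
    exact one_le_pow₀ h.esc
  · have e1 : w ((P.map (algebraMap K E)).coeff i) * w (algebraMap K E y) ^ i =
        (u (P.coeff i) * u y ^ i) ^ e := by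
      rw [coeff_map, ← hw, ← hw, mul_pow, ← pow_mul, ← pow_mul, mul_comm e]
    have e2 : w (algebraMap K E κ) * (w ((P.map (algebraMap K E)).coeff q) *
        w (algebraMap K E y) ^ q) = (u κ * (u (P.coeff q) * u y ^ q)) ^ e := by
      rw [coeff_map, ← hw, ← hw, ← hw, mul_pow, mul_pow, ← pow_mul (u y) q e, ← pow_mul (u y) e q,
        mul_comm e]
    rw [e1, e2]
    exact pow_le_pow_left₀ zero_le (h.dom i hi) _

variable {F : Type*} [Field F]

/-- Beyond a bound the leading term dominates. -/
theorem exists_radius (u : Valuation F ℤᵐ⁰) {g : F[X]} {D : ℕ} (h0 : g.coeff D ≠ 0)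
    (h2 : D = 1 → 1 ≤ u (g.coeff 1)) (h1 : 1 ≤ D) {κ : F} (hκ : κ ≠ 0) :
    ∃ M : ℤᵐ⁰, 1 ≤ M ∧ ∀ t, M < u t → Far u D g κ t := by
  set A := u (g.coeff D) with hA
  have hA0 : A ≠ 0 := u_ne u h0
  have hκ0 : u κ ≠ 0 := u_ne u hκ
  have hA1 : 0 < A := zero_lt_iff.mpr hA0
  have hk1 : 0 < u κ := zero_lt_iff.mpr hκ0
  refine ⟨max 1 (max A⁻¹ ((Finset.range D).sup fun i => u (g.coeff i) * (u κ * A)⁻¹)),
    le_max_left _ _, fun t ht => ?_⟩
  have ht1 : 1 < u t := (le_max_left _ _).trans_lt ht
  have ht2 : A⁻¹ < u t := ((le_max_left _ _).trans (le_max_right _ _)).trans_lt ht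
  have ht3 : ∀ i < D, u (g.coeff i) * (u κ * A)⁻¹ < u t := fun i hi =>
    ((Finset.le_sup (f := fun i => u (g.coeff i) * (u κ * A)⁻¹)
      (Finset.mem_range.mpr hi)).trans
      ((le_max_right _ _).trans (le_max_right _ _))).trans_lt ht
  have ht0 : 0 < u t := zero_lt_one.trans ht1
  refine ⟨?_, ?_, fun i hi => ?_⟩
  · rintro rfl
    rw [map_zero] at ht0
    exact lt_irrefl _ ht0
  · rw [← hA]
    rcases Nat.lt_or_ge 1 D with hD | hD
    · calc 1 = A * A⁻¹ := (mul_inv_cancel₀ hA0).symm
        _ ≤ A * u t := by gcongr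
        _ = A * u t ^ 1 := by rw [pow_one]
        _ ≤ A * u t ^ (D - 1) := by
            have := pow_le_pow_right₀ ht1.le (show 1 ≤ D - 1 by omega)
            gcongr
    · have hD1 : D = 1 := by omega
      have := h2 hD1
      rw [hD1, Nat.sub_self, pow_zero, mul_one, hA, hD1]
      exact this
  · rw [← hA]
    have h3 : u (g.coeff i) < u t * (u κ * A) := by
      have := ht3 i hi
      rwa [← div_eq_mul_inv, div_lt_iff₀ (mul_pos hk1 hA1)] at this
    calc u (g.coeff i) * u t ^ i < u t * (u κ * A) * u t ^ i :=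
          mul_lt_mul_of_pos_right h3 (pow_pos ht0 _)
      _ = u κ * (A * u t ^ (i + 1)) := by
          rw [pow_succ, mul_comm (u t) (u κ * A), mul_assoc, mul_assoc, mul_comm (u t)]
      _ ≤ u κ * (A * u t ^ D) := by
          have := pow_le_pow_right₀ ht1.le (show i + 1 ≤ D by omega)
          gcongr

variable {u : Valuation F ℤᵐ⁰} {q : ℕ} {P : F[X]} {κ : F}

/-- The orbit of a point strictly outside the disc is unbounded. -/
theorem unbounded (hq : 1 ≤ q) (hd : P.natDegree ≤ q) (hκ : u κ ≤ 1) {y : F}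
    (hy : Far u q P κ y) (hy1 : 1 < u (P.coeff q) * u y ^ (q - 1)) (M : ℤᵐ⁰) :
    ∃ n0 : ℕ, ∀ n, n0 ≤ n → M < u ((fun z => P.eval z)^[n] y) := by
  have hstep : ∀ n, Far u q P κ ((fun z => P.eval z)^[n] y) ∧
      u y ≤ u ((fun z => P.eval z)^[n] y) := by
    intro n
    induction n with
    | zero => exact ⟨hy, le_rfl⟩
    | succ n ih =>
      rw [Function.iterate_succ_apply']
      refine ⟨ih.1.step hq hd hκ, ih.2.trans ?_⟩
      change _ ≤ u (P.eval _)
      rw [ih.1.val hd hκ]
      exact ih.1.le_val hq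
  have hlog : ∀ n : ℕ, WithZero.log (u y) + n ≤
      WithZero.log (u ((fun z => P.eval z)^[n] y)) := by
    intro n
    induction n with
    | zero => simp
    | succ n ih =>
      have h1 := (hstep n).1
      have h2 : u ((fun z => P.eval z)^[n] y) < u ((fun z => P.eval z)^[n + 1] y) := by
        rw [Function.iterate_succ_apply']
        change _ < u (P.eval _)
        rw [h1.val hd hκ]
        have h3 : 1 < u (P.coeff q) * u ((fun z => P.eval z)^[n] y) ^ (q - 1) := by
          refine hy1.trans_le ?_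
          have := (hstep n).2
          gcongr
        calc u ((fun z => P.eval z)^[n] y) = 1 * u ((fun z => P.eval z)^[n] y) :=
              (one_mul _).symm
          _ < u (P.coeff q) * u ((fun z => P.eval z)^[n] y) ^ (q - 1) *
              u ((fun z => P.eval z)^[n] y) := mul_lt_mul_of_pos_right h3 h1.pos
          _ = u (P.coeff q) * u ((fun z => P.eval z)^[n] y) ^ q := by
              rw [mul_assoc, ← pow_succ]
              congr 2
              omega
      have h4 := (WithZero.log_lt_log h1.pos.ne' (hstep (n + 1)).1.pos.ne').mpr h2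
      push_cast
      omega
  by_cases hM : M = 0
  · exact ⟨0, fun n _ => by rw [hM]; exact (hstep n).1.pos⟩
  · refine ⟨(WithZero.log M - WithZero.log (u y) + 1).toNat, fun n hn => ?_⟩
    rw [← WithZero.log_lt_log hM (hstep n).1.pos.ne']
    have h1 := hlog n
    have h2 := Int.self_le_toNat (WithZero.log M - WithZero.log (u y) + 1)
    omega

/-- iterates as compositions -/
theorem eval_iter (P : F[X]) (m : ℕ) (z : F) :
    (P.comp^[m] X).eval z = (fun z => P.eval z)^[m] z := by
  induction m with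
  | zero => simp
  | succ m ih => rw [Function.iterate_succ_apply', Function.iterate_succ_apply', eval_comp, ih]

/-- **Commuting polynomials keep the region.** -/
theorem comm_far (hq : 2 ≤ q) (hd : P.natDegree = q) (hκ0 : κ ≠ 0) (hκ : u κ ≤ 1) {r : F}
    (hr : Rad u q P κ r) {g : F[X]} (hg : 1 ≤ g.natDegree) {m : ℕ} (hm : 0 < m)
    (hc : g.comp (P.comp^[m] X) = (P.comp^[m] X).comp g) {z : F}
    (hz : u (P.coeff q) * u r ^ q < u z) : u (P.coeff q) * u r ^ q < u (g.eval z) := by
  have hq1 : 1 ≤ q := by omega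
  by_contra hcon
  push Not at hcon
  have hlt := fun n => (gt_iter hq1 hd.le hκ0 hκ hr hz (hcon.trans_lt hz) n).2
  -- commutation
  have hcm : ∀ k : ℕ, (fun z => P.eval z)^[m * k] (g.eval z) =
      g.eval ((fun z => P.eval z)^[m * k] z) := by
    intro k
    induction k with
    | zero => rfl
    | succ k ih =>
      rw [Nat.mul_succ, add_comm, Function.iterate_add_apply, ih, Function.iterate_add_apply,
        ← eval_iter P m, ← eval_iter P m, ← eval_comp, ← eval_comp, hc]
  set G := P.comp^[m] X with hG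
  have hGd : G.natDegree = q ^ m := by
    rw [hG, natDegree_iterate_comp, natDegree_X, mul_one, hd]
  have hG2 : 2 ≤ G.natDegree := by
    rw [hGd]
    calc 2 ≤ q := hq
      _ = q ^ 1 := (pow_one q).symm
      _ ≤ q ^ m := Nat.pow_le_pow_right (by omega) hm
  -- the leading coefficient in degree one
  have hlead : g.natDegree = 1 → 1 ≤ u (g.coeff 1) := by
    intro h1
    have e1 := congrArg leadingCoeff hc
    rw [leadingCoeff_comp (by omega), leadingCoeff_comp (by omega), h1, pow_one] at e1
    have hGne : G.leadingCoeff ≠ 0 := by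
      rw [leadingCoeff_ne_zero]
      rintro h0
      rw [h0, natDegree_zero] at hG2
      omega
    have hgne : g.leadingCoeff ≠ 0 := by
      rw [leadingCoeff_ne_zero]
      rintro h0
      rw [h0, natDegree_zero] at hg
      omega
    have e2 : g.leadingCoeff ^ (G.natDegree - 1) = 1 := by
      have e3 : G.leadingCoeff * g.leadingCoeff ^ G.natDegree =
          G.leadingCoeff * g.leadingCoeff := by rw [← e1, mul_comm]
      have e4 := mul_left_cancel₀ hGne e3
      obtain ⟨k, hk⟩ : ∃ k, G.natDegree = k + 1 := ⟨G.natDegree - 1, by omega⟩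
      rw [hk, pow_succ] at e4
      rw [hk, Nat.add_sub_cancel]
      exact mul_right_cancel₀ hgne (by rw [e4, one_mul])
    have e3 : u (g.coeff 1) ^ (G.natDegree - 1) = 1 := by
      have e4 := congrArg u e2
      rw [map_pow, map_one, leadingCoeff, h1] at e4
      exact e4
    have hne : G.natDegree - 1 ≠ 0 := by omega
    exact ((pow_eq_one_iff_of_nonneg zero_le hne).mp e3).ge
  have hg0 : g.coeff g.natDegree ≠ 0 := by
    rw [coeff_natDegree, leadingCoeff_ne_zero]
    rintro h0
    rw [h0, natDegree_zero] at hg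
    omega
  obtain ⟨M, _, hM⟩ := exists_radius u hg0 hlead hg (one_ne_zero (α := F))
  -- `z` escapes
  have hzr : u r < u z := (hr.le_val hq1).trans_lt hz
  have hzf : Far u q P κ z := hr.far hκ0 hzr
  have hz1 : 1 < u (P.coeff q) * u z ^ (q - 1) := by
    refine hr.esc.trans_lt ?_
    exact mul_lt_mul_of_pos_left (pow_lt_pow_left₀ hzr zero_le (by omega))
      (zero_lt_iff.mpr (u_ne u hr.lead_ne))
  obtain ⟨n0, hn0⟩ := unbounded hq1 hd.le hκ hzf hz1 M
  have h1 : n0 ≤ m * n0 := Nat.le_mul_of_pos_left _ hm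
  have h2 := hM _ (hn0 (m * n0) h1)
  have h3 := hlt (m * n0)
  rw [hcm] at h3
  have h4 := h2.val le_rfl (by rw [map_one])
  have h5 := h2.le_val hg
  rw [← h4] at h5
  exact absurd h3 (not_lt.mpr h5)

end Pool.Agent.UHJ
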