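import Pool.Agent.UH.GOrb
import Pool.Agent.UHT.TLoc

/-!
# Orbits in the region where the leading term dominates
-/

set_option autoImplicit false

open IsDedekindDomain NumberField Polynomial
open scoped WithZero

namespace Pool.Agent.UHJ

open Pool.Agent.Arb.DB (od u_ne od_mul od_pos od_nonneg od_lt od_le od_eq od_add_eq od_add_ge
  od_pow)
open Pool.Agent.UH
open Pool.Agent.UHT (Cl)

variable {F : Type*} [Field F]

/-- The region where the leading term dominates (with the factor `κ`), and the value grows. -/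
structure Far (u : Valuation F ℤᵐ⁰) (q : ℕ) (P : F[X]) (κ y : F) : Prop where
  ne : y ≠ 0
  esc : 1 ≤ u (P.coeff q) * u y ^ (q - 1)
  dom : ∀ i < q, u (P.coeff i) * u y ^ i < u κ * (u (P.coeff q) * u y ^ q)

variable {u : Valuation F ℤᵐ⁰} {q : ℕ} {P : F[X]} {κ : F}

theorem Far.pos {y : F} (h : Far u q P κ y) : 0 < u y := zero_lt_iff.mpr (u_ne u h.ne)

theorem Far.lead_ne {y : F} (h : Far u q P κ y) : P.coeff q ≠ 0 := by
  intro h0
  have := h.esc
  rw [h0, map_zero, zero_mul] at this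
  exact absurd zero_lt_one (not_lt.mpr this)

theorem Far.mono {y y' : F} (h : Far u q P κ y) (hyy : u y ≤ u y') : Far u q P κ y' := by
  have h0 := h.pos
  have h0' : 0 < u y' := h0.trans_le hyy
  refine ⟨?_, ?_, fun i hi => ?_⟩
  · rintro rfl
    rw [map_zero] at h0'
    exact lt_irrefl _ h0'
  · refine h.esc.trans ?_
    gcongr
  · have h1 := h.dom i hi
    have h2 : u y' ^ i * u y ^ q ≤ u y ^ i * u y' ^ q := by
      obtain ⟨m, rfl⟩ : ∃ m, q = i + m := ⟨q - i, by omega⟩
      calc u y' ^ i * u y ^ (i + m) = u y' ^ i * u y ^ i * u y ^ m := by rw [pow_add, mul_assoc]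
        _ ≤ u y' ^ i * u y ^ i * u y' ^ m := by gcongr
        _ = u y ^ i * u y' ^ (i + m) := by
            rw [pow_add, mul_comm (u y' ^ i) (u y ^ i), mul_assoc]
    have h3 : u (P.coeff i) * u y' ^ i * u y ^ q <
        u κ * (u (P.coeff q) * u y' ^ q) * u y ^ q := by
      calc u (P.coeff i) * u y' ^ i * u y ^ q = u (P.coeff i) * (u y' ^ i * u y ^ q) := by
            rw [mul_assoc]
        _ ≤ u (P.coeff i) * (u y ^ i * u y' ^ q) := by gcongr
        _ = (u (P.coeff i) * u y ^ i) * u y' ^ q := by rw [mul_assoc]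
        _ < (u κ * (u (P.coeff q) * u y ^ q)) * u y' ^ q :=
            mul_lt_mul_of_pos_right h1 (pow_pos h0' _)
        _ = u κ * (u (P.coeff q) * u y' ^ q) * u y ^ q := by ac_rfl
    exact lt_of_mul_lt_mul_right h3 zero_le

theorem Far.cl (hd : P.natDegree ≤ q) (hκ : u κ ≤ 1) {y : F} (h : Far u q P κ y) :
    Cl u (P.eval y) (P.coeff q * y ^ q) := by
  unfold Cl
  have e : P.eval y - P.coeff q * y ^ q = ∑ i ∈ Finset.range q, P.coeff i * y ^ i := by
    rw [eval_eq_sum_range' (Nat.lt_succ_of_le hd), Finset.sum_range_succ]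
    ring
  have h0 : u (P.coeff q * y ^ q) = u (P.coeff q) * u y ^ q := by rw [map_mul, map_pow]
  rw [e, h0]
  refine Valuation.map_sum_lt u (mul_ne_zero (u_ne u h.lead_ne) (pow_ne_zero _ h.pos.ne'))
    fun i hi => ?_
  rw [map_mul, map_pow]
  exact (h.dom i (Finset.mem_range.mp hi)).trans_le (mul_le_of_le_one_left zero_le hκ)

theorem Far.val (hd : P.natDegree ≤ q) (hκ : u κ ≤ 1) {y : F} (h : Far u q P κ y) :
    u (P.eval y) = u (P.coeff q) * u y ^ q := by
  rw [(h.cl hd hκ).val, map_mul, map_pow]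

theorem Far.le_val (hq : 1 ≤ q) {y : F} (h : Far u q P κ y) :
    u y ≤ u (P.coeff q) * u y ^ q := by
  calc u y = 1 * u y := (one_mul _).symm
    _ ≤ (u (P.coeff q) * u y ^ (q - 1)) * u y := by gcongr; exact h.esc
    _ = u (P.coeff q) * u y ^ q := by
        rw [mul_assoc, ← pow_succ]
        congr 2
        omega

theorem Far.step (hq : 1 ≤ q) (hd : P.natDegree ≤ q) (hκ : u κ ≤ 1) {y : F}
    (h : Far u q P κ y) : Far u q P κ (P.eval y) :=
  h.mono (by rw [h.val hd hκ]; exact h.le_val hq)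

theorem Far.iter (hq : 1 ≤ q) (hd : P.natDegree ≤ q) (hκ : u κ ≤ 1) {y : F}
    (h : Far u q P κ y) (n : ℕ) : Far u q P κ ((fun z => P.eval z)^[n] y) := by
  induction n with
  | zero => exact h
  | succ n ih => rw [Function.iterate_succ_apply']; exact ih.step hq hd hκ

/-- A radius: outside the disc of radius `u r` the leading term dominates. -/
structure Rad (u : Valuation F ℤᵐ⁰) (q : ℕ) (P : F[X]) (κ r : F) : Prop where
  ne : r ≠ 0
  esc : 1 ≤ u (P.coeff q) * u r ^ (q - 1)
  dom : ∀ i < q, u (P.coeff i) * u r ^ i ≤ u κ * (u (P.coeff q) * u r ^ q)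

theorem Rad.pos {r : F} (h : Rad u q P κ r) : 0 < u r := zero_lt_iff.mpr (u_ne u h.ne)

theorem Rad.lead_ne {r : F} (h : Rad u q P κ r) : P.coeff q ≠ 0 := by
  intro h0
  have := h.esc
  rw [h0, map_zero, zero_mul] at this
  exact absurd zero_lt_one (not_lt.mpr this)

theorem Rad.le_val (hq : 1 ≤ q) {r : F} (h : Rad u q P κ r) :
    u r ≤ u (P.coeff q) * u r ^ q := by
  calc u r = 1 * u r := (one_mul _).symm
    _ ≤ (u (P.coeff q) * u r ^ (q - 1)) * u r := by gcongr; exact h.esc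
    _ = u (P.coeff q) * u r ^ q := by
        rw [mul_assoc, ← pow_succ]
        congr 2
        omega

theorem Far.rad {y : F} (h : Far u q P κ y) : Rad u q P κ y :=
  ⟨h.ne, h.esc, fun i hi => (h.dom i hi).le⟩

/-- The points outside the disc. -/
theorem Rad.far (hκ0 : κ ≠ 0) {r y : F} (h : Rad u q P κ r) (hy : u r < u y) :
    Far u q P κ y := by
  have h0 := h.pos
  have h0' : 0 < u y := h0.trans hy
  have hA : 0 < u (P.coeff q) := zero_lt_iff.mpr (u_ne u h.lead_ne)
  refine ⟨?_, ?_, fun i hi => ?_⟩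
  · rintro rfl
    rw [map_zero] at h0'
    exact lt_irrefl _ h0'
  · refine h.esc.trans ?_
    gcongr
  · have h1 := h.dom i hi
    have h2 : u y ^ i * u r ^ q < u r ^ i * u y ^ q := by
      obtain ⟨m, rfl⟩ : ∃ m, q = i + (m + 1) := ⟨q - i - 1, by omega⟩
      calc u y ^ i * u r ^ (i + (m + 1)) = u y ^ i * u r ^ i * u r ^ (m + 1) := by
            rw [pow_add, mul_assoc]
        _ < u y ^ i * u r ^ i * u y ^ (m + 1) :=
            mul_lt_mul_of_pos_left (pow_lt_pow_left₀ hy zero_le (by omega))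
              (mul_pos (pow_pos h0' _) (pow_pos h0 _))
        _ = u r ^ i * u y ^ (i + (m + 1)) := by
            rw [pow_add (u y) i (m + 1), mul_comm (u y ^ i) (u r ^ i), mul_assoc]
    by_cases hc : u (P.coeff i) = 0
    · rw [hc, zero_mul]
      exact mul_pos (zero_lt_iff.mpr (u_ne u hκ0)) (mul_pos hA (pow_pos h0' _))
    have hc' : 0 < u (P.coeff i) := zero_lt_iff.mpr hc
    have h3 : u (P.coeff i) * u y ^ i * u r ^ q <
        u κ * (u (P.coeff q) * u y ^ q) * u r ^ q := by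
      calc u (P.coeff i) * u y ^ i * u r ^ q = u (P.coeff i) * (u y ^ i * u r ^ q) := by
            rw [mul_assoc]
        _ < u (P.coeff i) * (u r ^ i * u y ^ q) := mul_lt_mul_of_pos_left h2 hc'
        _ = (u (P.coeff i) * u r ^ i) * u y ^ q := by rw [mul_assoc]
        _ ≤ (u κ * (u (P.coeff q) * u r ^ q)) * u y ^ q := by gcongr
        _ = u κ * (u (P.coeff q) * u y ^ q) * u r ^ q := by ac_rfl
    exact lt_of_mul_lt_mul_right h3 zero_le

/-- The values inside the disc. -/
theorem near_val (hd : P.natDegree ≤ q) (hκ : u κ ≤ 1) {r y : F}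
    (hr : Rad u q P κ r) (hy : u y ≤ u r) : u (P.eval y) ≤ u (P.coeff q) * u r ^ q := by
  rw [eval_eq_sum_range' (Nat.lt_succ_of_le hd)]
  refine Valuation.map_sum_le u fun i hi => ?_
  rw [map_mul, map_pow]
  have hi' := Finset.mem_range.mp hi
  rcases Nat.lt_succ_iff_lt_or_eq.mp hi' with h | h
  · calc u (P.coeff i) * u y ^ i ≤ u (P.coeff i) * u r ^ i := by gcongr
      _ ≤ u κ * (u (P.coeff q) * u r ^ q) := hr.dom i h
      _ ≤ u (P.coeff q) * u r ^ q := mul_le_of_le_one_left zero_le hκ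
  · rw [h]; gcongr

/-- If `x` is far outside and larger than `y`, the orbits never meet. -/
theorem gt_iter (hq : 1 ≤ q) (hd : P.natDegree ≤ q) (hκ0 : κ ≠ 0) (hκ : u κ ≤ 1) {r x y : F}
    (hr : Rad u q P κ r) (hx : u (P.coeff q) * u r ^ q < u x) (hxy : u y < u x) (n : ℕ) :
    u (P.coeff q) * u r ^ q < u ((fun z => P.eval z)^[n] x) ∧
      u ((fun z => P.eval z)^[n] y) < u ((fun z => P.eval z)^[n] x) := by
  induction n with
  | zero => exact ⟨hx, hxy⟩
  | succ n ih =>
    obtain ⟨ih1, ih2⟩ := ih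
    rw [Function.iterate_succ_apply', Function.iterate_succ_apply']
    set a := (fun z => P.eval z)^[n] x with ha
    set b := (fun z => P.eval z)^[n] y with hb
    have hfa : Far u q P κ a := hr.far hκ0 ((hr.le_val hq).trans_lt ih1)
    have h1 : u a ≤ u (P.eval a) := by rw [hfa.val hd hκ]; exact hfa.le_val hq
    refine ⟨ih1.trans_le h1, ?_⟩
    change u (P.eval b) < u (P.eval a)
    rcases le_or_gt (u b) (u r) with h | h
    · exact (near_val hd hκ hr h).trans_lt (ih1.trans_le h1)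
    · have hfb : Far u q P κ b := hr.far hκ0 h
      rw [hfb.val hd hκ, hfa.val hd hκ]
      exact mul_lt_mul_of_pos_left (pow_lt_pow_left₀ ih2 zero_le (by omega))
        (zero_lt_iff.mpr (u_ne u hr.lead_ne))

/-- Colliding points, one of them far outside, have the same absolute value. -/
theorem eq_of_collision (hq : 1 ≤ q) (hd : P.natDegree ≤ q) (hκ0 : κ ≠ 0) (hκ : u κ ≤ 1)
    {r x y : F} (hr : Rad u q P κ r) (hx : u (P.coeff q) * u r ^ q < max (u x) (u y)) {n : ℕ}
    (h : (fun z => P.eval z)^[n] x = (fun z => P.eval z)^[n] y) :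
    u x = u y ∧ Far u q P κ x ∧ Far u q P κ y := by
  have key : u x = u y := by
    rcases lt_trichotomy (u x) (u y) with h1 | h1 | h1
    · rw [max_eq_right h1.le] at hx
      have := (gt_iter hq hd hκ0 hκ hr hx h1 n).2
      rw [h] at this
      exact absurd this (lt_irrefl _)
    · exact h1
    · rw [max_eq_left h1.le] at hx
      have := (gt_iter hq hd hκ0 hκ hr hx h1 n).2
      rw [h] at this
      exact absurd this (lt_irrefl _)
  rw [key, max_self] at hx
  have hy : Far u q P κ y := hr.far hκ0 ((hr.le_val hq).trans_lt hx)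
  exact ⟨key, hy.mono key.ge, hy⟩

theorem Far.iter_eq (hq : 1 ≤ q) (hd : P.natDegree ≤ q) (hκ : u κ ≤ 1) {x y : F}
    (hx : Far u q P κ x) (hy : Far u q P κ y) (hxy : u x = u y) (n : ℕ) :
    u ((fun z => P.eval z)^[n] x) = u ((fun z => P.eval z)^[n] y) := by
  induction n with
  | zero => exact hxy
  | succ n ih =>
    rw [Function.iterate_succ_apply', Function.iterate_succ_apply']
    change u (P.eval _) = u (P.eval _)
    rw [(hx.iter hq hd hκ n).val hd hκ, (hy.iter hq hd hκ n).val hd hκ, ih]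

/-! ### the scaled polynomial -/

/-- `P (B X) / (a B ^ q)` -/
noncomputable def sc (q : ℕ) (P : F[X]) (B : F) : F[X] :=
  C (P.coeff q * B ^ q)⁻¹ * P.comp (C B * X)

theorem sc_coeff (B : F) (i : ℕ) :
    (sc q P B).coeff i = (P.coeff q * B ^ q)⁻¹ * (P.coeff i * B ^ i) := by
  unfold sc
  rw [coeff_C_mul, comp_C_mul_X_coeff]

theorem sc_eval (B t : F) : (sc q P B).eval t = (P.coeff q * B ^ q)⁻¹ * P.eval (B * t) := by
  unfold sc
  rw [eval_mul, eval_C, eval_comp, eval_mul, eval_C, eval_X]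

theorem Far.sc_lead {B : F} (h : Far u q P κ B) : (sc q P B).coeff q = 1 := by
  rw [sc_coeff]
  exact inv_mul_cancel₀ (mul_ne_zero h.lead_ne (pow_ne_zero _ h.ne))

theorem Far.sc_low {B : F} (h : Far u q P κ B) {i : ℕ} (hi : i < q) :
    u ((sc q P B).coeff i) < u κ := by
  have h0 : 0 < u (P.coeff q) * u B ^ q :=
    zero_lt_iff.mpr (mul_ne_zero (u_ne u h.lead_ne) (pow_ne_zero _ h.pos.ne'))
  rw [sc_coeff, map_mul, map_inv₀, inv_mul_lt_iff₀ (by rw [map_mul, map_pow]; exact h0), map_mul,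
    map_mul, map_pow, map_pow]
  rw [mul_comm (u (P.coeff q) * u B ^ q)]
  exact h.dom i hi

theorem Far.good (hd : P.natDegree ≤ q) {π : F} (hκπ : u κ ≤ u π) (hπ : u π < 1) {B : F}
    (h : Far u q P κ B) : Good u q π (sc q P B) := by
  refine ⟨fun i hi => ?_, ?_, fun i _ h2 => ?_, ?_⟩
  · have h0 : P.coeff i = 0 := coeff_eq_zero_of_natDegree_lt (by omega)
    rw [sc_coeff, h0, zero_mul, mul_zero]
  · rw [h.sc_lead, map_one]
  · exact (h.sc_low h2).le.trans hκπ
  · rcases Nat.eq_zero_or_pos q with h0 | h0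
    · subst h0
      rw [h.sc_lead, map_one]
    · exact (h.sc_low h0).le.trans (hκπ.trans hπ.le)

theorem Far.good' (hq : 1 ≤ q) (hd : P.natDegree ≤ q) (hκ : u κ ≤ 1) {B : F}
    (h : Far u q P κ B) : ∃ π : F, u π < 1 ∧ Good u q π (sc q P B) := by
  obtain ⟨j, hj, hjm⟩ := Finset.exists_max_image (Finset.range q)
    (fun i => u ((sc q P B).coeff i)) ⟨0, Finset.mem_range.mpr (by omega)⟩
  have hj1 : u ((sc q P B).coeff j) < 1 := (h.sc_low (Finset.mem_range.mp hj)).trans_le hκ
  refine ⟨(sc q P B).coeff j, hj1, fun i hi => ?_, ?_, fun i _ h2 => ?_, ?_⟩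
  · have h0 : P.coeff i = 0 := coeff_eq_zero_of_natDegree_lt (by omega)
    rw [sc_coeff, h0, zero_mul, mul_zero]
  · rw [h.sc_lead, map_one]
  · exact hjm i (Finset.mem_range.mpr h2)
  · exact (hjm 0 (Finset.mem_range.mpr (by omega))).trans hj1.le

theorem Far.sc_deriv (hd : P.natDegree ≤ q) {B : F} (hκq : u κ ≤ u (q : F)) (hq0 : (q : F) ≠ 0)
    (h : Far u q P κ B) : u ((sc q P B).derivative.eval 1) = u (q : F) := by
  have hdeg : (sc q P B).natDegree ≤ q := by
    rw [natDegree_le_iff_coeff_eq_zero]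
    intro i hi
    have h0 : P.coeff i = 0 := coeff_eq_zero_of_natDegree_lt (by omega)
    rw [sc_coeff, h0, zero_mul, mul_zero]
  have e : (sc q P B).derivative.eval 1 = (q : F) +
      ∑ i ∈ Finset.range q, (sc q P B).coeff i * i := by
    rw [derivative_eval, sum_over_range' _ _ (q + 1) (by omega), Finset.sum_range_succ,
      h.sc_lead, add_comm]
    · simp
    · intro n; simp
  rw [e]
  refine Valuation.map_add_eq_of_lt_left u (Valuation.map_sum_lt u (u_ne u hq0) fun i hi => ?_)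
  rw [map_mul]
  have h1 : u (i : F) ≤ 1 := natCast_mem u.integer i
  calc u ((sc q P B).coeff i) * u (i : F) ≤ u ((sc q P B).coeff i) * 1 := by gcongr
    _ = u ((sc q P B).coeff i) := mul_one _
    _ < u κ := h.sc_low (Finset.mem_range.mp hi)
    _ ≤ u (q : F) := hκq

theorem sc_collision {A B : F} (hB : B ≠ 0) (h : P.eval A = P.eval B) :
    (sc q P B).eval (1 + (A / B - 1)) = (sc q P B).eval 1 := by
  rw [sc_eval, sc_eval, add_sub_cancel, mul_div_cancel₀ _ hB, mul_one, h]

theorem sc_diff (hd : P.natDegree ≤ q) (hκ : u κ ≤ 1) {A B : F}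
    (hB : Far u q P κ B) : u (P.eval A / P.eval B - 1) =
      u ((sc q P B).eval (1 + (A / B - 1)) - (sc q P B).eval 1) := by
  have h1 := hB.val hd hκ
  have h0 : P.eval B ≠ 0 := by
    intro h2
    rw [h2, map_zero] at h1
    exact mul_ne_zero (u_ne u hB.lead_ne) (pow_ne_zero _ hB.pos.ne') h1.symm
  have h2 : P.coeff q * B ^ q ≠ 0 := mul_ne_zero hB.lead_ne (pow_ne_zero _ hB.ne)
  rw [sc_eval, sc_eval, add_sub_cancel, mul_div_cancel₀ _ hB.ne, mul_one, ← mul_sub, map_mul,
    map_inv₀, map_mul, map_pow, ← h1]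
  have e : P.eval A / P.eval B - 1 = (P.eval B)⁻¹ * (P.eval A - P.eval B) := by
    field_simp
  rw [e, map_mul, map_inv₀]

theorem div_sub_one_le {A B : F} (hB : B ≠ 0) (h : u A = u B) : u (A / B - 1) ≤ 1 := by
  refine Valuation.map_sub_le u ?_ (by rw [map_one])
  rw [map_div₀, h, div_self (u_ne u hB)]

/-- **Collisions far outside, tame case.** -/
theorem far_tame (hq : 1 ≤ q) (hd : P.natDegree ≤ q) (hκ : u κ ≤ 1)
    (huq : u (q : F) = 1) {x y : F} (hx : Far u q P κ x) (hy : Far u q P κ y)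
    (hxy : u x = u y) {N : ℕ}
    (h1 : (fun z => P.eval z)^[N + 1] x = (fun z => P.eval z)^[N + 1] y)
    (h2 : (fun z => P.eval z)^[N] x ≠ (fun z => P.eval z)^[N] y) :
    ∃ ρ : F, u ρ = 1 ∧ u (ρ ^ q ^ N - 1) = 1 ∧ u (ρ ^ q ^ (N + 1) - 1) < 1 := by
  have hq0 : (q : F) ≠ 0 := by
    intro h; rw [h, map_zero] at huq; exact zero_ne_one huq
  have hxi := fun n => hx.iter hq hd hκ n
  have hyi := fun n => hy.iter hq hd hκ n
  have hρ1 : u (x / y) = 1 := by
    rw [map_div₀, hxy, div_self (u_ne u hy.ne)]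
  have hcldiv : ∀ {a b a' b' : F}, Cl u a b → Cl u a' b' → Cl u (a / a') (b / b') := by
    intro a b a' b' h h'
    have hinv : Cl u a'⁻¹ b'⁻¹ := by
      have hb := h'.ne
      have ha : a' ≠ 0 := h'.symm.ne
      have h3 := h'.val
      have h4 : 0 < u b' := h'.pos
      unfold Cl at h' ⊢
      have e : a'⁻¹ - b'⁻¹ = (b' - a') * (a'⁻¹ * b'⁻¹) := by field_simp
      have h5 : u b' ≠ 0 := h4.ne'
      rw [e, map_mul, map_mul, map_inv₀, map_inv₀, h3, Valuation.map_sub_swap]
      have hp : 0 < (u b')⁻¹ := by rw [inv_pos]; exact h4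
      calc u (a' - b') * ((u b')⁻¹ * (u b')⁻¹) < u b' * ((u b')⁻¹ * (u b')⁻¹) :=
            mul_lt_mul_of_pos_right h' (mul_pos hp hp)
        _ = (u b')⁻¹ := by rw [← mul_assoc, mul_inv_cancel₀ h5, one_mul]
    rw [div_eq_mul_inv, div_eq_mul_inv]
    exact h.mul hinv
  have hrat : ∀ n, Cl u ((fun z => P.eval z)^[n] x / (fun z => P.eval z)^[n] y)
      ((x / y) ^ q ^ n) := by
    intro n
    induction n with
    | zero =>
      rw [pow_zero, pow_one]
      exact Cl.refl (div_ne_zero hx.ne hy.ne)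
    | succ n ih =>
      rw [Function.iterate_succ_apply', Function.iterate_succ_apply']
      have h3 := hcldiv ((hxi n).cl hd hκ) ((hyi n).cl hd hκ)
      rw [mul_div_mul_left _ _ hx.lead_ne, ← div_pow] at h3
      have h4 := ih.pow q
      rw [← pow_mul, ← pow_succ] at h4
      exact h3.trans h4
  refine ⟨x / y, hρ1, ?_, ?_⟩
  · set A := (fun z => P.eval z)^[N] x with hA
    set B := (fun z => P.eval z)^[N] y with hB
    have hBf : Far u q P κ B := hyi N
    by_contra hcon
    have hle : u ((x / y) ^ q ^ N - 1) ≤ 1 := by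
      refine Valuation.map_sub_le u ?_ (by rw [map_one])
      rw [map_pow, hρ1, one_pow]
    have hlt : u ((x / y) ^ q ^ N - 1) < 1 := lt_of_le_of_ne hle hcon
    have hAB : u (A / B - 1) < 1 := by
      have e : A / B - 1 = (A / B - (x / y) ^ q ^ N) + ((x / y) ^ q ^ N - 1) := by ring
      have h3 := hrat N
      unfold Cl at h3
      rw [map_pow, hρ1, one_pow] at h3
      rw [e]
      exact Valuation.map_add_lt u h3 hlt
    have hABne : A / B - 1 ≠ 0 := fun h => h2 ((div_eq_one_iff_eq hBf.ne).mp (sub_eq_zero.mp h))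
    have hcol : P.eval A = P.eval B := by
      rw [Function.iterate_succ_apply', Function.iterate_succ_apply', ← hA, ← hB] at h1
      exact h1
    obtain ⟨π, hπ, hG⟩ := hBf.good' hq hd hκ
    have h5 := hG.deriv_le hπ (z := 1) (by rw [map_one]) hAB.le hABne
      (sc_collision hBf.ne hcol)
    rw [hBf.sc_deriv hd (by rw [huq]; exact hκ) hq0, huq] at h5
    exact absurd hAB (not_lt.mpr h5)
  · have h3 := hrat (N + 1)
    rw [h1, div_self (hyi (N + 1)).ne] at h3
    have h4 := h3.symm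
    unfold Cl at h4
    rw [map_one] at h4
    exact h4

/-- **Collisions far outside, wild case.** -/
theorem far_wild {p s : ℕ} (hp : p.Prime) (hs : 0 < s) (hd : P.natDegree ≤ p ^ s) {π : F}
    (hκπ : u κ ≤ u π) (hπ : u π < 1) (hπ0 : π ≠ 0) (hpπ : u (p : F) ≤ u π)
    (hκq : u κ ≤ u ((p ^ s : ℕ) : F)) (hq0 : ((p ^ s : ℕ) : F) ≠ 0) {x y : F}
    (hx : Far u (p ^ s) P κ x) (hy : Far u (p ^ s) P κ y) (hxy : u x = u y) {N : ℕ}
    (h1 : (fun z => P.eval z)^[N + 1] x = (fun z => P.eval z)^[N + 1] y)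
    (h2 : (fun z => P.eval z)^[N] x ≠ (fun z => P.eval z)^[N] y) :
    ∃ m : ℕ, (m : ℤ) * od u π ≤ od u ((p ^ s : ℕ) : F) ∧
      ((p ^ s : ℕ) : ℤ) ^ N ≤ ((p ^ s : ℕ) : ℤ) ^ m * ((p ^ s : ℕ) * od u π) := by
  set q := p ^ s with hq
  have hq2 : 2 ≤ q := by
    calc 2 ≤ p := hp.two_le
      _ = p ^ 1 := (pow_one p).symm
      _ ≤ p ^ s := Nat.pow_le_pow_right hp.pos hs
  have hq1 : 1 ≤ q := by omega
  have hκ : u κ ≤ 1 := hκπ.trans hπ.le
  set φ : F → F := fun z => P.eval z with hφ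
  have hxi : ∀ n, Far u q P κ (φ^[n] x) := fun n => hx.iter hq1 hd hκ n
  have hyi : ∀ n, Far u q P κ (φ^[n] y) := fun n => hy.iter hq1 hd hκ n
  have heq : ∀ n, u (φ^[n] x) = u (φ^[n] y) := fun n => hx.iter_eq hq1 hd hκ hy hxy n
  set T : ℕ → F := fun n => φ^[n] x / φ^[n] y - 1 with hT
  have hTle : ∀ n, u (T n) ≤ 1 := fun n => div_sub_one_le (hyi n).ne (heq n)
  have hTstep : ∀ n, u (T (n + 1)) = u ((sc q P (φ^[n] y)).eval (1 + T n) -
      (sc q P (φ^[n] y)).eval 1) := by
    intro n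
    simp only [hT]
    rw [Function.iterate_succ_apply', Function.iterate_succ_apply']
    exact sc_diff hd hκ (hyi n)
  have hne : ∀ n ≤ N, φ^[n] x ≠ φ^[n] y := by
    intro n hn h
    apply h2
    obtain ⟨t, rfl⟩ : ∃ t, N = t + n := ⟨N - n, by omega⟩
    rw [Function.iterate_add_apply, Function.iterate_add_apply, h]
  have hT0 : ∀ n ≤ N, T n ≠ 0 := by
    intro n hn h
    exact hne n hn ((div_eq_one_iff_eq (hyi n).ne).mp (sub_eq_zero.mp h))
  have hback : ∀ n, u (T (n + 1)) < 1 → u (T n) < 1 := by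
    intro n hn
    rw [hTstep n] at hn
    exact Good.back hp hπ0 hπ hpπ ((hyi n).good hd hκπ hπ) (by rw [map_one]) (hTle n) hn
  have hTN1 : T (N + 1) = 0 := by
    simp only [hT]
    rw [h1, div_self (hyi (N + 1)).ne, sub_self]
  have hTlt : ∀ n, n ≤ N + 1 → u (T (N + 1 - n)) < 1 := by
    intro n
    induction n with
    | zero =>
      intro _
      rw [Nat.sub_zero, hTN1, map_zero]; exact zero_lt_one
    | succ n ih =>
      intro hn
      have h3 := ih (by omega)
      obtain ⟨t, ht⟩ : ∃ t, N + 1 - n = t + 1 := ⟨N - n, by omega⟩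
      rw [ht] at h3
      have h4 : N + 1 - (n + 1) = t := by omega
      rw [h4]
      exact hback t h3
  have hTlt' : ∀ n ≤ N, u (T n) < 1 := by
    intro n hn
    have := hTlt (N + 1 - n) (by omega)
    rwa [show N + 1 - (N + 1 - n) = n by omega] at this
  have hstep : ∀ n < N, _ := fun n (hn : n < N) =>
    ((hyi n).good hd hκπ hπ).step hp hπ0 hπ hpπ (z := 1) (by rw [map_one]) (hTlt' n hn.le) (by
      intro h
      have h3 := hTstep n
      rw [h, sub_self, map_zero] at h3
      exact hT0 (n + 1) (by omega) ((Valuation.zero_iff u).mp h3))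
  obtain ⟨m, hm1, hm2⟩ := seq_bound q hq2 (od u π) ((od_pos u hπ0).mp hπ) (fun n => od u (T n)) N
    ((od_pos u (hT0 0 (by omega))).mp (hTlt' 0 (by omega)))
    (fun n hn h => by
      have h3 := (hstep n hn).1 h
      change od u (T (n + 1)) = _
      rw [od_eq u (hTstep n)]
      exact h3)
    (fun n hn h => by
      have h3 := (hstep n hn).2.1 h
      change _ ≤ od u (T (n + 1))
      rw [od_eq u (hTstep n)]
      exact h3)
  refine ⟨m, hm1.trans ?_, hm2⟩
  have hcol : P.eval (φ^[N] x) = P.eval (φ^[N] y) := by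
    rw [Function.iterate_succ_apply', Function.iterate_succ_apply'] at h1
    exact h1
  have h5 := ((hyi N).good hd hκπ hπ).deriv_le hπ (z := 1) (by rw [map_one]) (hTle N)
    (hT0 N le_rfl) (sc_collision (hyi N).ne hcol)
  rw [(hyi N).sc_deriv hd hκq hq0] at h5
  exact (od_le u hq0 (hT0 N le_rfl)).mp h5

end Pool.Agent.UHJ
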