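import Pool.Agent.UHJ.Pair

/-!
# Curves that miss the filled Julia set
-/

set_option autoImplicit false

universe u

open IsDedekindDomain NumberField Polynomial
open scoped WithZero

namespace Pool.Agent.UHJ

open Pool.Agent.UHG (st st_iter map_st map_iter_st IsNonverticalCurve points hyp main_S)

/-- The finite place `w` of `E` lies above the finite place `v` of `K`. -/
def Above {K E : Type*} [Field K] [NumberField K] [Field E] [NumberField E] [Algebra K E]
    (v : HeightOneSpectrum (𝓞 K)) (w : HeightOneSpectrum (𝓞 E)) : Prop :=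
  ∀ a : K, v.valuation K a < 1 → w.valuation E (algebraMap K E a) < 1

/-- `f = ∑ f_i X ^ i` of degree `q`, `r ∈ K`: `|f_q| |r| ^ (q - 1) ≥ 1` and
`|f_i| |r| ^ i ≤ |q f_q| |r| ^ q` for all `i < q`, with the absolute value of the place `v`. -/
structure IsRadius {K : Type*} [Field K] [NumberField K] (v : HeightOneSpectrum (𝓞 K))
    (f : K[X]) (r : K) : Prop where
  escape : 1 ≤ v.valuation K (f.leadingCoeff * r ^ (f.natDegree - 1))
  dominates : ∀ i < f.natDegree, v.valuation K (f.coeff i * r ^ i) ≤
    v.valuation K (f.natDegree * f.leadingCoeff * r ^ f.natDegree)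

/-- With `q` the degree of `f`, `r` a radius of `f` at `v` and `ρ = f_q r ^ q`: for every number
field `E` containing `K`, every place `w` of `E` above `v` and every point `P` of the curve over
`E`, at least one of `f^t(P_i)`, `f^t(P_j)` has absolute value greater than `|ρ|` at `w`. -/
def Misses {K : Type u} [Field K] [NumberField K] {n : ℕ} (f : K[X])
    (I : Ideal (MvPolynomial (Fin n) K)) (v : HeightOneSpectrum (𝓞 K)) (i j : Fin n) : Prop :=
  ∃ (r : K) (t : ℕ), IsRadius v f r ∧ ∀ (E : Type u) [Field E] [NumberField E] [Algebra K E]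
    (w : HeightOneSpectrum (𝓞 E)), Above v w → ∀ P : Fin n → E,
      (∀ H ∈ I, MvPolynomial.aeval P H = 0) →
      w.valuation E (algebraMap K E (f.leadingCoeff * r ^ f.natDegree)) <
        max (w.valuation E ((fun z => aeval z f)^[t] (P i)))
          (w.valuation E ((fun z => aeval z f)^[t] (P j)))

theorem IsRadius.rad {K : Type*} [Field K] [NumberField K] {v : HeightOneSpectrum (𝓞 K)}
    {f : K[X]} {r : K} (hq : 2 ≤ f.natDegree) (h : IsRadius v f r) :
    Rad (v.valuation K) f.natDegree f (f.natDegree : K) r := by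
  refine ⟨?_, ?_, fun i hi => ?_⟩
  · rintro rfl
    have h1 := h.escape
    rw [zero_pow (by omega), mul_zero, map_zero] at h1
    exact absurd zero_lt_one (not_lt.mpr h1)
  · have h1 := h.escape
    rw [map_mul, map_pow, leadingCoeff] at h1
    exact h1
  · have h1 := h.dominates i hi
    rw [map_mul, map_pow, map_mul, map_mul, map_pow, leadingCoeff, mul_assoc] at h1
    exact h1

/-- **The degree bound for one pair of coordinates.** -/
theorem pair_bound {K : Type u} [Field K] [NumberField K] (f : K[X]) {p s : ℕ} (hp : p.Prime)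
    (hs : 0 < s) (hdeg : f.natDegree = p ^ s) {n : ℕ} (I : Ideal (MvPolynomial (Fin n) K))
    (m : ℕ) (hm : 0 < m) (i j : Fin n) (v : HeightOneSpectrum (𝓞 K)) (h : Misses f I v i j) :
    ∃ C0 : ℕ, ∀ (E : IntermediateField K (AlgebraicClosure K)) [FiniteDimensional K E]
      (P : Fin n → AlgebraicClosure K), P ∈ points I → ∀ g : K[X],
      1 ≤ g.natDegree → g.comp (f.comp^[m] X) = (f.comp^[m] X).comp g → ∀ (k : ℕ) (x y : E),
      (x : AlgebraicClosure K) = (st f)^[k] (P i) →
      (y : AlgebraicClosure K) = st g ((st f)^[k] (P j)) → ∀ N : ℕ,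
      (st f)^[N + 1] x = (st f)^[N + 1] y → (st f)^[N] x ≠ (st f)^[N] y →
        f.natDegree ^ N ≤ C0 * Module.finrank K E := by
  classical
  obtain ⟨r, t, hrad, hmiss⟩ := h
  have hq2 : 2 ≤ f.natDegree := by
    rw [hdeg]
    calc 2 ≤ p := hp.two_le
      _ = p ^ 1 := (pow_one p).symm
      _ ≤ p ^ s := Nat.pow_le_pow_right hp.pos hs
  have hR := hrad.rad hq2
  obtain ⟨C1, hC1, hcol⟩ := collision_far.{u, u} hp hs f hdeg v (r := r) (by rw [← hdeg]; exact hR)
  refine ⟨f.natDegree ^ (m * t) * C1, ?_⟩
  intro E _ P hP g hg hc k x y hx hy N heq hne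
  have hNF : NumberField E := NumberField.of_module_finite K E
  have hfr : 0 < Module.finrank K E := Module.finrank_pos
  have hq1 : 1 ≤ f.natDegree := by omega
  rcases lt_or_ge N (m * t) with hN | hN
  · calc f.natDegree ^ N ≤ f.natDegree ^ (m * t) := Nat.pow_le_pow_right hq1 hN.le
      _ = f.natDegree ^ (m * t) * 1 * 1 := by ring
      _ ≤ f.natDegree ^ (m * t) * C1 * Module.finrank K E := by
          apply Nat.mul_le_mul _ hfr
          exact Nat.mul_le_mul_left _ hC1
  obtain ⟨N', rfl⟩ : ∃ N', N = N' + m * t := ⟨N - m * t, by omega⟩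
  -- the pair is far outside at time `m t`
  have hfar : ∀ (W : HeightOneSpectrum (𝓞 E)) (e : ℕ), 0 < e →
      (∀ a : K, v.valuation K a ^ e = W.valuation E (algebraMap K E a)) →
      W.valuation E (algebraMap K E (f.coeff (p ^ s) * r ^ p ^ s)) <
        max (W.valuation E ((st f)^[m * t] x)) (W.valuation E ((st f)^[m * t] y)) := by
    intro W e he hw
    set E' := IntermediateField.adjoin E (Set.range P) with hE'
    have hfd : FiniteDimensional E E' := IntermediateField.finiteDimensional_adjoin
      fun z _ => (Algebra.IsAlgebraic.isAlgebraic z).isIntegral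
    have hNF' : NumberField E' := NumberField.of_module_finite E E'
    obtain ⟨W', e', he', _, hw'⟩ := Arb.exists_above W E'
    have hmem : ∀ l, P l ∈ E' := fun l => IntermediateField.subset_adjoin E _ ⟨l, rfl⟩
    set P' : Fin n → E' := fun l => ⟨P l, hmem l⟩ with hP'
    set φ : E' →ₐ[K] AlgebraicClosure K := E'.val.restrictScalars K with hφ
    have hφinj : Function.Injective φ := φ.injective
    have hφP : ∀ l, φ (P' l) = P l := fun l => rfl
    have hcomp : (MvPolynomial.aeval P : MvPolynomial (Fin n) K →ₐ[K] AlgebraicClosure K) =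
        φ.comp (MvPolynomial.aeval P') := by
      apply MvPolynomial.algHom_ext
      intro l
      rw [AlgHom.comp_apply, MvPolynomial.aeval_X, MvPolynomial.aeval_X, hφP]
    have hPE : ∀ H ∈ I, MvPolynomial.aeval P' H = 0 := by
      intro H hH
      apply hφinj
      rw [map_zero]
      exact (DFunLike.congr_fun hcomp H).symm.trans (hP H hH)
    have hpow : ∀ a : K, v.valuation K a ^ (e * e') =
        W'.valuation E' (algebraMap K E' a) := by
      intro a
      rw [pow_mul, hw, hw', ← IsScalarTower.algebraMap_apply K E E']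
    have habove : Above v W' := by
      intro a ha
      rw [← hpow]
      exact pow_lt_one₀ zero_le ha (by positivity)
    have h1 := hmiss E' W' habove P' hPE
    have h2 := pair_far hq2 rfl v hR W' hpow hg hm hc t k (P' i) (P' j) h1
    have ex : (st f)^[m * t] ((st f)^[k] (P' i)) = algebraMap E E' ((st f)^[m * t] x) := by
      apply hφinj
      rw [map_iter_st, map_iter_st, hφP, ← hx]
      have h3 : φ (algebraMap E E' ((st f)^[m * t] x)) = E.val ((st f)^[m * t] x) := rfl
      rw [h3, map_iter_st]
      rfl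
    have ey : (st f)^[m * t] (st g ((st f)^[k] (P' j))) =
        algebraMap E E' ((st f)^[m * t] y) := by
      apply hφinj
      rw [map_iter_st, map_st, map_iter_st, hφP, ← hy]
      have h3 : φ (algebraMap E E' ((st f)^[m * t] y)) = E.val ((st f)^[m * t] y) := rfl
      rw [h3, map_iter_st]
      rfl
    rw [ex, ey, ← hw', ← hw'] at h2
    have h3 : algebraMap K E' (f.coeff f.natDegree * r ^ f.natDegree) =
        algebraMap E E' (algebraMap K E (f.coeff f.natDegree * r ^ f.natDegree)) :=
      IsScalarTower.algebraMap_apply K E E' _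
    rw [h3, ← hw'] at h2
    rw [← hdeg]
    by_contra hcon
    push Not at hcon
    obtain ⟨h4, h5⟩ := max_le_iff.mp hcon
    exact absurd h2 (not_lt.mpr (max_le (pow_le_pow_left₀ zero_le h4 _)
      (pow_le_pow_left₀ zero_le h5 _)))
  have h1 := hcol E ((st f)^[m * t] x) ((st f)^[m * t] y) hfar N' (by
    rw [← Function.iterate_add_apply, ← Function.iterate_add_apply]
    have e1 : N' + 1 + m * t = N' + m * t + 1 := by ring
    rw [e1]; exact heq) (by
    rw [← Function.iterate_add_apply, ← Function.iterate_add_apply]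
    exact hne)
  calc f.natDegree ^ (N' + m * t) = f.natDegree ^ (m * t) * f.natDegree ^ N' := by
        rw [pow_add, mul_comm]
    _ ≤ f.natDegree ^ (m * t) * (C1 * Module.finrank K E) := Nat.mul_le_mul_left _ h1
    _ = _ := by ring

/-- **Uniform height bound for curves that miss the filled Julia set.** -/
theorem main_misses {K : Type u} [Field K] [NumberField K] (f : K[X]) {p s : ℕ} (hp : p.Prime)
    (hs : 0 < s) (hdeg : f.natDegree = p ^ s) (m : ℕ) (hm : 0 < m) (n : ℕ)
    (I : Ideal (MvPolynomial (Fin n) K)) (hI : IsNonverticalCurve I)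
    (h : ∀ i j : Fin n, i ≠ j → ∃ v : HeightOneSpectrum (𝓞 K), Misses f I v i j) :
    ∃ B : ℝ, ∀ k : ℕ, ∀ V ∈ hyp f m n k, ¬ points I ⊆ V → ∀ P ∈ points I ∩ V,
      ∑ i, absLogHeight₁ (P i) ≤ B := by
  classical
  have hq2 : 2 ≤ f.natDegree := by
    rw [hdeg]
    calc 2 ≤ p := hp.two_le
      _ = p ^ 1 := (pow_one p).symm
      _ ≤ p ^ s := Nat.pow_le_pow_right hp.pos hs
  apply main_S f hq2 m hm n I hI
  have key : ∀ i j : Fin n, ∃ C0 : ℕ, i ≠ j →
      ∀ (E : IntermediateField K (AlgebraicClosure K)) [FiniteDimensional K E]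
      (P : Fin n → AlgebraicClosure K), P ∈ points I → ∀ g : K[X],
      1 ≤ g.natDegree → g.comp (f.comp^[m] X) = (f.comp^[m] X).comp g → ∀ (k : ℕ) (x y : E),
      (x : AlgebraicClosure K) = (st f)^[k] (P i) →
      (y : AlgebraicClosure K) = st g ((st f)^[k] (P j)) → ∀ N : ℕ,
      (st f)^[N + 1] x = (st f)^[N + 1] y → (st f)^[N] x ≠ (st f)^[N] y →
        f.natDegree ^ N ≤ C0 * Module.finrank K E := by
    intro i j
    by_cases hij : i = j
    · exact ⟨0, fun hne => absurd hij hne⟩
    · obtain ⟨v, hv⟩ := h i j hij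
      obtain ⟨C0, hC0⟩ := pair_bound f hp hs hdeg I m hm i j v hv
      exact ⟨C0, fun _ => hC0⟩
  choose C hC using key
  refine ⟨∑ i, ∑ j, C i j, ?_⟩
  intro E _ P hP i j hij g hg hc k x y hx hy N heq hne
  refine (hC i j hij E P hP g hg hc k x y hx hy N heq hne).trans (Nat.mul_le_mul_right _ ?_)
  exact (Finset.single_le_sum (f := fun j => C i j) (fun j _ => Nat.zero_le _)
    (Finset.mem_univ j)).trans (Finset.single_le_sum (f := fun i => ∑ j, C i j)
      (fun i _ => Nat.zero_le _) (Finset.mem_univ i))

end Pool.Agent.UHJ
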