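import Pool.Agent.UHJ.Coll
import Pool.Agent.UHG.MainS

/-!
# Pairs of points far outside, iterates and commuting polynomials
-/

set_option autoImplicit false

universe u

open IsDedekindDomain NumberField Polynomial
open scoped WithZero

namespace Pool.Agent.UHJ

open Pool.Agent.UHG (st st_iter st_comm_iter map_st map_iter_st)
open Pool.Agent.UH2 (aeval_fun)

section
variable {F : Type*} [Field F] {u : Valuation F ℤᵐ⁰} {q : ℕ} {P : F[X]} {κ : F}

/-- The region is kept by the iterates. -/
theorem iter_far (hq : 1 ≤ q) (hd : P.natDegree ≤ q) (hκ0 : κ ≠ 0) (hκ : u κ ≤ 1) {r z : F}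
    (hr : Rad u q P κ r) (hz : u (P.coeff q) * u r ^ q < u z) (n : ℕ) :
    u (P.coeff q) * u r ^ q < u ((fun z => P.eval z)^[n] z) := by
  induction n with
  | zero => exact hz
  | succ n ih =>
    rw [Function.iterate_succ_apply']
    change _ < u (P.eval _)
    have hf : Far u q P κ ((fun z => P.eval z)^[n] z) := hr.far hκ0 ((hr.le_val hq).trans_lt ih)
    rw [hf.val hd hκ]
    exact ih.trans_le (hf.le_val hq)

end

variable {K : Type*} [Field K] [NumberField K]

/-- A point one of whose coordinates is far outside at time `t`, seen from the pair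
`(f^k(x), g(f^k(y)))`. -/
theorem pair_far {f : K[X]} {q : ℕ} (hq : 2 ≤ q) (hd : f.natDegree = q)
    (v : HeightOneSpectrum (𝓞 K)) {r : K} (hr : Rad (v.valuation K) q f (q : K) r)
    {E : Type*} [Field E] [NumberField E] [Algebra K E] (W : HeightOneSpectrum (𝓞 E)) {e : ℕ}
    (hw : ∀ a : K, v.valuation K a ^ e = W.valuation E (algebraMap K E a))
    {g : K[X]} (hg : 1 ≤ g.natDegree) {m : ℕ} (hm : 0 < m)
    (hc : g.comp (f.comp^[m] X) = (f.comp^[m] X).comp g) (t k : ℕ) (x y : E)
    (h : W.valuation E (algebraMap K E (f.coeff q * r ^ q)) <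
      max (W.valuation E ((st f)^[t] x)) (W.valuation E ((st f)^[t] y))) :
    W.valuation E (algebraMap K E (f.coeff q * r ^ q)) <
      max (W.valuation E ((st f)^[m * t] ((st f)^[k] x)))
        (W.valuation E ((st f)^[m * t] (st g ((st f)^[k] y)))) := by
  set w := W.valuation E with hwdef
  set P := f.map (algebraMap K E) with hPdef
  have hPd : P.natDegree = q := by rw [hPdef, natDegree_map, hd]
  have hrE : Rad w q P ((q : ℕ) : E) (algebraMap K E r) := by
    have := hr.base hw
    rwa [map_natCast] at this
  have hqE0 : ((q : ℕ) : E) ≠ 0 := by exact_mod_cast (by omega : q ≠ 0)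
  have hκE : w ((q : ℕ) : E) ≤ 1 := natCast_mem w.integer q
  have hρ : w (algebraMap K E (f.coeff q * r ^ q)) =
      w (P.coeff q) * w (algebraMap K E r) ^ q := by
    rw [hPdef, coeff_map, map_mul, map_mul, map_pow, map_pow]
  have hst : (st f : E → E) = fun z => P.eval z := by
    rw [hPdef]; exact aeval_fun f
  have hsg : ∀ z : E, st g z = (g.map (algebraMap K E)).eval z := fun z => by
    rw [eval_map_algebraMap]
  obtain ⟨j, hj⟩ : ∃ j, m * t = j + t := ⟨m * t - t, by
    have := Nat.le_mul_of_pos_left t hm
    omega⟩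
  -- the orbit at time `m t + k`
  have hlate : ∀ z : E, w (P.coeff q) * w (algebraMap K E r) ^ q < w ((st f)^[t] z) →
      w (P.coeff q) * w (algebraMap K E r) ^ q < w ((st f)^[m * t] ((st f)^[k] z)) := by
    intro z hz
    have e1 : (st f)^[m * t] ((st f)^[k] z) = (st f)^[j + k] ((st f)^[t] z) := by
      rw [← Function.iterate_add_apply, ← Function.iterate_add_apply]
      congr 1
      omega
    rw [e1, hst]
    rw [hst] at hz
    exact iter_far (by omega) hPd.le hqE0 hκE hrE hz _
  rw [hρ] at h ⊢
  rcases lt_max_iff.mp h with h | h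
  · exact lt_max_of_lt_left (hlate x h)
  · refine lt_max_of_lt_right ?_
    have h1 := hlate y h
    have e1 : (st f)^[m * t] (st g ((st f)^[k] y)) = st g ((st f)^[m * t] ((st f)^[k] y)) := by
      have h2 := st_comm_iter (A := E) hc ((st f)^[k] y) t
      rw [st_iter, ← Function.iterate_mul] at h2
      exact h2.symm
    rw [e1, hsg]
    refine comm_far (m := m) hq hPd hqE0 hκE hrE (by rw [natDegree_map]; exact hg) hm ?_ h1
    have e2 : ∀ n : ℕ, (P.comp)^[n] X = ((f.comp)^[n] X).map (algebraMap K E) := by
      intro n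
      induction n with
      | zero => simp
      | succ n ih => rw [Function.iterate_succ_apply', Function.iterate_succ_apply',
          Polynomial.map_comp, ih]
    rw [e2, ← Polynomial.map_comp, ← Polynomial.map_comp, hc]

end Pool.Agent.UHJ
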